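import Mathlib

/-!
# Paths through a net of a continuum
-/

set_option autoImplicit false

open Filter Topology Set Metric

namespace Pool.Agent.Y257.Dm

theorem exists_net_path {E : Set ℂ} (hE : IsCompact E) (hc : IsPreconnected E) {a b : ℂ}
    (ha : a ∈ E) (hb : b ∈ E) {δ : ℝ} (hδ : 0 < δ) :
    ∃ γ : ℝ → ℂ, Continuous γ ∧ γ 0 = a ∧ γ 1 = b ∧
      (∀ w ∈ γ '' Icc 0 1, ∃ x ∈ E, dist w x < δ) ∧
      (∀ x ∈ E, ∃ w ∈ γ '' Icc 0 1, dist x w < δ) := by
  classical
  set T : Set ℂ := thickening δ E with hT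
  have hTo : IsOpen T := isOpen_thickening
  have hET : E ⊆ T := self_subset_thickening hδ E
  set u : Set ℂ := pathComponentIn T a with hu
  have huo : IsOpen u := hTo.pathComponentIn a
  have hau : a ∈ u := mem_pathComponentIn_self (hET ha)
  have hEu : E ⊆ u := by
    apply hc.subset_of_closure_inter_subset huo ⟨a, ha, hau⟩
    rintro y ⟨hy, hyE⟩
    obtain ⟨y', hy', hd⟩ := Metric.mem_closure_iff.1 hy δ hδ
    have hball : ball y δ ⊆ T := by
      intro x hx
      exact mem_thickening_iff.2 ⟨y, hyE, hx⟩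
    have hseg : segment ℝ y' y ⊆ T := by
      refine Subset.trans ?_ hball
      apply (convex_ball y δ).segment_subset
      · rw [mem_ball, dist_comm]; exact hd
      · exact mem_ball_self hδ
    have hj : JoinedIn T y' y := JoinedIn.of_segment_subset hseg
    exact JoinedIn.trans hy' hj
  have hpc : IsPathConnected u := isPathConnected_pathComponentIn (hET ha)
  obtain ⟨t, htE, htf, htc⟩ := hE.finite_cover_balls hδ
  obtain ⟨m, e, he⟩ : ∃ (m : ℕ) (e : Fin m → ℂ), range e = t := by
    have := htf.fintype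
    refine ⟨Fintype.card t, fun i => ((Fintype.equivFin t).symm i : ℂ), ?_⟩
    ext x
    constructor
    · rintro ⟨i, rfl⟩
      exact Subtype.coe_prop _
    · intro hx
      exact ⟨Fintype.equivFin t ⟨x, hx⟩, by simp⟩
  have heE : ∀ i, e i ∈ E := fun i => htE (he ▸ mem_range_self i)
  set p : Fin (m + 1 + 1) → ℂ := Fin.cons a (Fin.snoc e b) with hp
  have hpE : ∀ i, p i ∈ u := by
    intro i
    apply hEu
    refine Fin.cases ?_ (fun j => ?_) i
    · simpa [hp] using ha
    · refine Fin.lastCases ?_ (fun l => ?_) j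
      · simpa [hp] using hb
      · simpa [hp] using heE l
  obtain ⟨γ, hγ1, hγ2⟩ := hpc.exists_path_through_family p hpE
  have hp0 : p 0 = a := by simp [hp]
  have hpl : p (Fin.last (m + 1)) = b := by
    rw [hp, ← Fin.succ_last, Fin.cons_succ, Fin.snoc_last]
  have him : γ.extend '' Icc 0 1 = range γ := γ.image_extend_of_subset Subset.rfl
  refine ⟨γ.extend, γ.continuous_extend, ?_, ?_, ?_, ?_⟩
  · rw [γ.extend_zero, hp0]
  · rw [γ.extend_one, hpl]
  · intro w hw
    rw [him] at hw
    have h1 : w ∈ T := pathComponentIn_subset (hγ1 hw)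
    exact mem_thickening_iff.1 h1
  · intro x hx
    have h1 := htc hx
    simp only [mem_iUnion] at h1
    obtain ⟨y, hy, hxy⟩ := h1
    rw [← he] at hy
    obtain ⟨i, rfl⟩ := hy
    refine ⟨e i, ?_, hxy⟩
    rw [him]
    have h2 := hγ2 (Fin.succ (Fin.castSucc i))
    simpa [hp] using h2

end Pool.Agent.Y257.Dm
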