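import Mathlib
import Pool.Agent.Helper240.ZFM.Q2c
import Pool.Agent.Helper240.ZFM.AreaA

/-!
# The exterior conformal map of a path

The set-up follows the starting file `Helper240/ZFM/Q2c.lean`.
-/

set_option autoImplicit false

open Complex Filter Topology Set Metric

namespace Pool.Agent.Y257.Dm

open Pool.Agent.Helper405.Area (Dp)

theorem ext_map (γ : ℝ → ℂ) (hγ : Continuous γ) (hne : γ 0 ≠ γ 1) :
    ∃ (h H : ℂ → ℂ), H 0 ≠ 0 ∧ DifferentiableOn ℂ h Dp ∧ InjOn h Dp ∧
      Tendsto h (𝓝[≠] 0) (Bornology.cobounded ℂ) ∧ DifferentiableOn ℂ H (ball 0 1) ∧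
      (∀ z ∈ Dp, H z = z * h z) ∧ (∀ z ∈ Dp, h z ∉ γ '' Icc 0 1) ∧
      (∀ η : ℝ, 0 < η → ∃ ρ : ℝ, 0 < ρ ∧ ρ < 1 ∧ ∀ z : ℂ, ρ < ‖z‖ → ‖z‖ < 1 →
        ∃ s ∈ γ '' Icc 0 1, dist (h z) s < η) := by
  classical
  obtain ⟨U, hU, hUc, h0U, hvU, hgood, hmem⟩ := ZFM.inverted_good γ hγ hne
  have hUne : U ≠ univ := fun h => hvU (h ▸ mem_univ _)
  obtain ⟨g1, φ1, hg1d, hg1b, hg1', hφ1d, hφ1m, hgφ, hφg⟩ :=
    ZFM.riemann_prim hU hUc hUne (ZFM.primitive_of_good hU hgood)
  set c := φ1 0 with hcdef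
  have hc : c ∈ ball (0 : ℂ) 1 := hφ1m h0U
  have hc' : -c ∈ ball (0 : ℂ) 1 := by simpa using hc
  set m : ℂ → ℂ := fun z => (z + c) / (1 + (starRingEnd ℂ) c * z) with hm
  set mi : ℂ → ℂ := fun z => (z + -c) / (1 + (starRingEnd ℂ) (-c) * z) with hmi
  have hmd : DifferentiableOn ℂ m (ball 0 1) := by
    intro z hz
    have := (ZFM.J_q2c.mob_mem hc hz).1
    refine DifferentiableAt.differentiableWithinAt ?_
    exact DifferentiableAt.div (by fun_prop) (by fun_prop) this
  have hmid : DifferentiableOn ℂ mi (ball 0 1) := by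
    intro z hz
    have := (ZFM.J_q2c.mob_mem hc' hz).1
    refine DifferentiableAt.differentiableWithinAt ?_
    exact DifferentiableAt.div (by fun_prop) (by fun_prop) this
  have hmm : MapsTo m (ball 0 1) (ball 0 1) := fun z hz => (ZFM.J_q2c.mob_mem hc hz).2
  have hmim : MapsTo mi (ball 0 1) (ball 0 1) := fun z hz => (ZFM.J_q2c.mob_mem hc' hz).2
  have hmi_m : ∀ z ∈ ball (0 : ℂ) 1, mi (m z) = z := fun z hz => ZFM.J_q2c.mob_inv hc hz
  have hm0 : m 0 = c := by simp [hm]
  set G : ℂ → ℂ := fun z => g1 (m z) with hG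
  set φ : ℂ → ℂ := fun w => mi (φ1 w) with hφ
  have hGd : DifferentiableOn ℂ G (ball 0 1) := hg1d.comp hmd hmm
  have hφd : DifferentiableOn ℂ φ U := hmid.comp hφ1d hφ1m
  have hφm : MapsTo φ U (ball 0 1) := fun w hw => hmim (hφ1m hw)
  have hφG : ∀ z ∈ ball (0 : ℂ) 1, φ (G z) = z := by
    intro z hz
    simp only [hφ, hG]
    rw [hφg _ (hmm hz), hmi_m z hz]
  have hGU : ∀ z ∈ ball (0 : ℂ) 1, G z ∈ U := fun z hz => hg1b.mapsTo (hmm hz)
  have hG0 : G 0 = 0 := by
    simp only [hG, hm0, hcdef]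
    exact hgφ 0 h0U
  have h0b : (0 : ℂ) ∈ ball (0 : ℂ) 1 := mem_ball_self one_pos
  have hGi : InjOn G (ball 0 1) := by
    intro x hx y hy hxy
    rw [← hφG x hx, ← hφG y hy, hxy]
  have hGne : ∀ z ∈ Dp, G z ≠ 0 := by
    intro z hz h
    exact hz.2 (hGi hz.1 h0b (h.trans hG0.symm))
  have hGdat : HasDerivAt G (deriv G 0) 0 :=
    (hGd.differentiableAt (isOpen_ball.mem_nhds h0b)).hasDerivAt
  have hφdat : HasDerivAt φ (deriv φ 0) 0 :=
    (hφd.differentiableAt (hU.mem_nhds h0U)).hasDerivAt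
  have hprod : deriv φ 0 * deriv G 0 = 1 := by
    have h1 : HasDerivAt (fun z => φ (G z)) (deriv φ 0 * deriv G 0) 0 := by
      have h2 : HasDerivAt φ (deriv φ 0) (G 0) := by rw [hG0]; exact hφdat
      exact h2.comp 0 hGdat
    have h3 : HasDerivAt (fun z => φ (G z)) 1 0 := by
      refine (hasDerivAt_id (0 : ℂ)).congr_of_eventuallyEq ?_
      filter_upwards [isOpen_ball.mem_nhds h0b] with z hz
      exact hφG z hz
    exact h1.unique h3
  have hG'0 : deriv G 0 ≠ 0 := fun h => by rw [h, mul_zero] at hprod; exact zero_ne_one hprod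
  set q : ℂ → ℂ := dslope G 0 with hq
  have hqd : DifferentiableOn ℂ q (ball 0 1) :=
    (Complex.differentiableOn_dslope (isOpen_ball.mem_nhds h0b)).2 hGd
  have hqv : ∀ z, z ≠ 0 → q z = G z / z := by
    intro z hz
    rw [hq, dslope_of_ne _ hz, slope_def_field, hG0, sub_zero, sub_zero]
  have hq0 : q 0 = deriv G 0 := by rw [hq, dslope_same]
  have hqne : ∀ z ∈ ball (0 : ℂ) 1, q z ≠ 0 := by
    intro z hz
    by_cases h : z = 0
    · rw [h, hq0]; exact hG'0
    · rw [hqv z h]
      exact div_ne_zero (hGne z ⟨hz, h⟩) h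
  set E : Set ℂ := γ '' Icc 0 1 with hE
  have hEk : IsCompact E := isCompact_Icc.image hγ
  have hEo : IsOpen Eᶜ := hEk.isClosed.isOpen_compl
  have haE : γ 0 ∈ E := ⟨0, ⟨le_refl _, zero_le_one⟩, rfl⟩
  refine ⟨fun z => γ 0 + 1 / G z, fun z => γ 0 * z + 1 / q z, ?_, ?_, ?_, ?_, ?_, ?_, ?_, ?_⟩
  · simp only [mul_zero, zero_add, hq0]
    exact one_div_ne_zero hG'0
  · intro z hz
    have h1 : DifferentiableWithinAt ℂ G Dp z := (hGd.mono diff_subset) z hz
    exact (differentiableWithinAt_const _).add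
      ((differentiableWithinAt_const _).div h1 (hGne z hz))
  · intro x hx y hy hxy
    have h1 : 1 / G x = 1 / G y := add_left_cancel hxy
    apply hGi hx.1 hy.1
    have hx' := hGne x hx
    have hy' := hGne y hy
    rw [div_eq_div_iff hx' hy'] at h1
    linear_combination -h1
  · have t1 : Tendsto G (𝓝[≠] 0) (𝓝[≠] 0) := by
      rw [tendsto_nhdsWithin_iff]
      refine ⟨?_, ?_⟩
      · have := hGdat.continuousAt.tendsto
        rw [hG0] at this
        exact this.mono_left nhdsWithin_le_nhds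
      · have : ∀ᶠ z in 𝓝[≠] (0 : ℂ), z ∈ ball (0 : ℂ) 1 :=
          (isOpen_ball.mem_nhds h0b : ball (0:ℂ) 1 ∈ 𝓝 (0 : ℂ)) |> fun h => mem_nhdsWithin_of_mem_nhds h
        filter_upwards [this, self_mem_nhdsWithin] with z hz hz0
        exact hGne z ⟨hz, hz0⟩
    have t2 : Tendsto (fun z => (G z)⁻¹) (𝓝[≠] 0) (Bornology.cobounded ℂ) :=
      Filter.tendsto_inv₀_nhdsNE_zero.comp t1
    have t3 : Tendsto (fun z => γ 0 + (G z)⁻¹) (𝓝[≠] 0) (Bornology.cobounded ℂ) :=
      (tendsto_const_add_cobounded (γ 0)).comp t2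
    simpa only [one_div] using t3
  · intro z hz
    have h1 : DifferentiableAt ℂ q z := hqd.differentiableAt (isOpen_ball.mem_nhds hz)
    refine DifferentiableAt.differentiableWithinAt ?_
    exact ((differentiableAt_const _).mul differentiableAt_id).add
      ((differentiableAt_const _).div h1 (hqne z hz))
  · intro z hz
    have h1 := hqv z hz.2
    have h2 := hGne z hz
    have h3 : z ≠ 0 := hz.2
    simp only [h1]
    field_simp
  · intro z hz
    exact ((hmem (G z) (hGne z hz)).1 (hGU z hz.1)).1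
  · intro η hη
    -- the compact set of points of `U` far from the boundary
    set C : Set ℂ := {u | u ∈ U ∧ (u = 0 ∨ ∀ s ∈ E, η ≤ dist (γ 0 + 1 / u) s)} with hC
    have hCb : C ⊆ closedBall 0 (1 / η) := by
      rintro u ⟨_, hu⟩
      rw [mem_closedBall_zero_iff]
      rcases hu with h | h
      · rw [h, norm_zero]; positivity
      · have h1 := h _ haE
        rw [dist_eq_norm, add_sub_cancel_left, norm_div, norm_one] at h1
        have hu0 : 0 < ‖u‖ := by
          by_contra hcon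
          have : ‖u‖ = 0 := le_antisymm (not_lt.1 hcon) (norm_nonneg _)
          rw [this, div_zero] at h1
          linarith
        rw [le_div_iff₀ hu0] at h1
        rw [le_div_iff₀ hη]
        linarith
    have hCc : IsClosed C := by
      rw [← isOpen_compl_iff, isOpen_iff_mem_nhds]
      intro u hu
      by_contra hcon
      have hfreq : ∃ᶠ v in 𝓝 u, v ∈ C := by
        rw [Filter.Frequently]
        intro h
        exact hcon h
      apply hu
      by_cases hu0 : u = 0
      · rw [hu0]; exact ⟨h0U, Or.inl rfl⟩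
      have hcont : ContinuousAt (fun v : ℂ => γ 0 + 1 / v) u :=
        continuousAt_const.add (continuousAt_const.div continuousAt_id hu0)
      have hfar : ∀ s ∈ E, η ≤ dist (γ 0 + 1 / u) s := by
        intro s hs
        by_contra hlt
        push Not at hlt
        have hev : ∀ᶠ v in 𝓝 u, dist (γ 0 + 1 / v) s < η :=
          (hcont.dist continuousAt_const).eventually (gt_mem_nhds hlt)
        have hev0 : ∀ᶠ v in 𝓝 u, v ≠ 0 := isOpen_ne.mem_nhds hu0
        obtain ⟨v, hv1, hv2, hv3⟩ := (hfreq.and_eventually (hev.and hev0)).exists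
        rcases hv1.2 with h | h
        · exact hv3 h
        · exact absurd (h s hs) (not_le.2 hv2)
      refine ⟨?_, Or.inr hfar⟩
      set w := γ 0 + 1 / u with hw
      have hwE : w ∉ E := fun h => by
        have := hfar w h
        rw [dist_self] at this
        linarith
      rw [hmem u hu0]
      refine ⟨hwE, ?_⟩
      have hball : ball w η ⊆ Eᶜ := by
        intro x hx hxE
        have := hfar x hxE
        rw [mem_ball, dist_comm] at hx
        linarith
      have hev : ∀ᶠ v in 𝓝 u, γ 0 + 1 / v ∈ ball w η := hcont.eventually (ball_mem_nhds w hη)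
      have hev0 : ∀ᶠ v in 𝓝 u, v ≠ 0 := isOpen_ne.mem_nhds hu0
      obtain ⟨v, hv1, hv2, hv3⟩ := (hfreq.and_eventually (hev.and hev0)).exists
      have h1 := ((hmem v hv3).1 hv1.1).2
      have h2 : γ 0 + 1 / v ∈ connectedComponentIn Eᶜ w :=
        ((convex_ball w η).isPreconnected.subset_connectedComponentIn (mem_ball_self hη) hball) hv2
      rwa [connectedComponentIn_eq h2]
    have hCk : IsCompact C := (isCompact_closedBall 0 (1 / η)).of_isClosed_subset hCc hCb
    have hφC : IsCompact (φ '' C) := hCk.image_of_continuousOn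
      (hφd.continuousOn.mono fun u hu => hu.1)
    have hφC1 : φ '' C ⊆ ball 0 1 := by
      rintro _ ⟨u, hu, rfl⟩
      exact hφm hu.1
    obtain ⟨ρ, hρ1, hρ2⟩ : ∃ ρ : ℝ, ρ < 1 ∧ ∀ z ∈ φ '' C, ‖z‖ ≤ ρ := by
      rcases (φ '' C).eq_empty_or_nonempty with h | h
      · exact ⟨0, one_pos, by rw [h]; simp⟩
      · obtain ⟨z, hz, hmax⟩ := hφC.exists_isMaxOn h continuous_norm.continuousOn
        refine ⟨‖z‖, ?_, fun y hy => hmax hy⟩
        simpa using hφC1 hz
    refine ⟨max ρ (1 / 2), by positivity, max_lt hρ1 (by norm_num), ?_⟩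
    intro z hz1 hz2
    have hzb : z ∈ ball (0 : ℂ) 1 := by simpa using hz2
    have hz0 : z ≠ 0 := by
      intro h
      rw [h, norm_zero] at hz1
      have := (le_max_right ρ (1 / 2)).trans_lt hz1
      linarith
    by_contra hcon
    push Not at hcon
    have h1 : G z ∈ C := ⟨hGU z hzb, Or.inr hcon⟩
    have h2 := hρ2 _ ⟨G z, h1, rfl⟩
    rw [hφG z hzb] at h2
    have := (le_max_left ρ (1 / 2)).trans_lt hz1
    linarith

end Pool.Agent.Y257.Dm
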