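import Mathlib
import Pool.Agent.W338.P4.Had

/-!
# A determinant inequality
-/

set_option autoImplicit false

open Matrix
open scoped ComplexOrder BigOperators

namespace Pool.Agent.Y257.Dm

theorem diag_conjTranspose_mul {m n : Type*} [Fintype m] (Y : Matrix m n ℂ) (i : n) :
    (Yᴴ * Y) i i = ((∑ k, ‖Y k i‖ ^ 2 : ℝ) : ℂ) := by
  rw [Matrix.mul_apply]
  push_cast
  refine Finset.sum_congr rfl fun k _ => ?_
  rw [Matrix.conjTranspose_apply, Complex.star_def, mul_comm, Complex.mul_conj,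
    Complex.normSq_eq_norm_sq]
  push_cast
  rfl

theorem det_bound {n L : ℕ} (A : Matrix (Fin n) (Fin n) ℂ) (Z : Matrix (Fin n) (Fin L) ℂ)
    (B : Matrix (Fin L) (Fin n) ℂ) :
    ‖(A + Z * B).det‖ ^ 2 ≤ (∏ l, (1 + ∑ k, ‖Z k l‖ ^ 2)) *
      ∏ i, (∑ k, ‖A k i‖ ^ 2 + ∑ l, ‖B l i‖ ^ 2) := by
  classical
  set X : Matrix (Fin n) (Fin n ⊕ Fin L) ℂ := fromCols 1 Z with hX
  set Y : Matrix (Fin n ⊕ Fin L) (Fin n) ℂ := fromRows A B with hY
  have hXY : X * Y = A + Z * B := by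
    rw [hX, hY, fromCols_mul_fromRows, one_mul]
  set S : Matrix (Fin n) (Fin n) ℂ := 1 + Z * Zᴴ with hS
  have hXX : X * Xᴴ = S := by
    rw [hX, conjTranspose_fromCols_eq_fromRows_conjTranspose, fromCols_mul_fromRows,
      conjTranspose_one, one_mul]
  have hSp : S.PosDef := by
    rw [hS]
    exact PosDef.one.add_posSemidef (posSemidef_self_mul_conjTranspose Z)
  have hSu : IsUnit S.det := (Matrix.isUnit_iff_isUnit_det S).1 hSp.isUnit
  have hSh : S⁻¹ᴴ = S⁻¹ := hSp.inv.isHermitian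
  set Pi : Matrix (Fin n ⊕ Fin L) (Fin n ⊕ Fin L) ℂ := Xᴴ * S⁻¹ * X with hPi
  have hPiH : Piᴴ = Pi := by
    rw [hPi, conjTranspose_mul, conjTranspose_mul, conjTranspose_conjTranspose, hSh,
      Matrix.mul_assoc]
  have hPi2 : Pi * Pi = Pi := by
    have h1 : Pi * Pi = Xᴴ * S⁻¹ * (X * Xᴴ) * S⁻¹ * X := by
      rw [hPi]; simp only [Matrix.mul_assoc]
    rw [h1, hXX, Matrix.mul_assoc (Xᴴ) (S⁻¹) S, Matrix.nonsing_inv_mul S hSu, Matrix.mul_one]
  set P : Matrix (Fin n) (Fin n) ℂ := (X * Y)ᴴ * S⁻¹ * (X * Y) with hP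
  have hPp : P.PosSemidef := by
    have := hSp.inv.posSemidef.conjTranspose_mul_mul_same (X * Y)
    rwa [hP]
  have hPdiag : ∀ i, P i i ≤ ((∑ k, ‖A k i‖ ^ 2 + ∑ l, ‖B l i‖ ^ 2 : ℝ) : ℂ) := by
    intro i
    have h1 : Yᴴ * Y - P = ((1 - Pi) * Y)ᴴ * ((1 - Pi) * Y) := by
      have e1 : P = Yᴴ * Pi * Y := by
        rw [hP, hPi, conjTranspose_mul]; simp only [Matrix.mul_assoc]
      have e2 : (1 - Pi)ᴴ * (1 - Pi) = 1 - Pi := by
        rw [conjTranspose_sub, conjTranspose_one, hPiH, sub_mul, mul_sub, mul_sub, hPi2]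
        simp
      rw [e1, conjTranspose_mul ((1 - Pi)) Y]
      have e3 : Yᴴ * (1 - Pi)ᴴ * ((1 - Pi) * Y) = Yᴴ * ((1 - Pi)ᴴ * (1 - Pi)) * Y := by
        simp only [Matrix.mul_assoc]
      rw [e3, e2, Matrix.mul_sub, Matrix.sub_mul, Matrix.mul_one]
    have h2 := congrFun (congrFun h1 i) i
    rw [Matrix.sub_apply, diag_conjTranspose_mul, diag_conjTranspose_mul, Fintype.sum_sum_type] at h2
    have h3 : (0 : ℂ) ≤ ((∑ k : Fin n ⊕ Fin L,
        ‖(((1 - Pi) * Y : Matrix (Fin n ⊕ Fin L) (Fin n) ℂ)) k i‖ ^ 2 : ℝ) : ℂ) := by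
      rw [Complex.zero_le_real]; positivity
    rw [← h2] at h3
    have h4 := sub_nonneg.1 h3
    refine h4.trans (le_of_eq ?_)
    simp [hY]
  have hPdet : P.det ≤ ∏ i, P i i := Pool.Agent.W338.P4.det_le_diag n P hPp
  have hPd0 : ∀ i, 0 ≤ P i i := fun i => hPp.diag_nonneg
  have hPdet2 : P.det ≤ ((∏ i, (∑ k, ‖A k i‖ ^ 2 + ∑ l, ‖B l i‖ ^ 2) : ℝ) : ℂ) := by
    refine hPdet.trans ?_
    push_cast
    refine Finset.prod_le_prod (fun i _ => hPd0 i) fun i _ => ?_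
    have := hPdiag i
    push_cast at this
    exact this
  -- the determinant of S
  have hSdet : S.det ≤ ((∏ l, (1 + ∑ k, ‖Z k l‖ ^ 2) : ℝ) : ℂ) := by
    have e1 : S.det = (1 + Zᴴ * Z).det := by
      rw [hS, Matrix.det_one_add_mul_comm]
    have hT : (1 + Zᴴ * Z).PosSemidef :=
      (PosSemidef.one).add (posSemidef_conjTranspose_mul_self Z)
    rw [e1]
    refine (Pool.Agent.W338.P4.det_le_diag L _ hT).trans (le_of_eq ?_)
    push_cast
    refine Finset.prod_congr rfl fun l _ => ?_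
    rw [Matrix.add_apply, Matrix.one_apply_eq, diag_conjTranspose_mul]
    push_cast
    rfl
  have hS0 : (0 : ℂ) < S.det := hSp.det_pos
  have hkey : ((‖(X * Y).det‖ ^ 2 : ℝ) : ℂ) = S.det * P.det := by
    rw [hP, det_mul, det_mul, det_conjTranspose, Complex.star_def]
    have h1 : S.det * S⁻¹.det = 1 := by
      rw [← det_mul, Matrix.mul_nonsing_inv S hSu, det_one]
    have h2 : (starRingEnd ℂ) (X * Y).det * (X * Y).det = ((‖(X * Y).det‖ ^ 2 : ℝ) : ℂ) := by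
      rw [mul_comm, Complex.mul_conj, Complex.normSq_eq_norm_sq]
    rw [← h2]
    linear_combination -((starRingEnd ℂ) (X * Y).det * (X * Y).det) * h1
  rw [← hXY]
  have hfin : ((‖(X * Y).det‖ ^ 2 : ℝ) : ℂ) ≤ (((∏ l, (1 + ∑ k, ‖Z k l‖ ^ 2)) *
      ∏ i, (∑ k, ‖A k i‖ ^ 2 + ∑ l, ‖B l i‖ ^ 2) : ℝ) : ℂ) := by
    rw [hkey, Complex.ofReal_mul]
    refine mul_le_mul hSdet hPdet2 hPp.det_nonneg ?_
    rw [Complex.zero_le_real]
    exact Finset.prod_nonneg fun l _ => by positivity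
  exact Complex.real_le_real.1 hfin

end Pool.Agent.Y257.Dm
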