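import Mathlib
import Pool.Agent.Y257.Dm.Lin
import Pool.Agent.Y257.Dm.Ext

/-!
# The Grunsky type coefficients of the exterior map
-/

set_option autoImplicit false

open Complex Filter Topology Set Metric

namespace Pool.Agent.Y257.Dm

open Pool.Agent.Helper405.Area (Dp)

/-- Taylor coefficients of `H ^ k` -/
noncomputable def bc (H : ℂ → ℂ) (k j : ℕ) : ℂ :=
  ((j.factorial : ℂ))⁻¹ * iteratedDeriv j (fun z => H z ^ k) 0

theorem bc_hasSum {H : ℂ → ℂ} (hH : DifferentiableOn ℂ H (ball 0 1)) (k : ℕ) {z : ℂ}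
    (hz : z ∈ ball (0 : ℂ) 1) : HasSum (fun j => bc H k j * z ^ j) (H z ^ k) := by
  have h1 : DifferentiableOn ℂ (fun z => H z ^ k) (ball 0 1) := hH.pow k
  have h2 := Complex.hasSum_taylorSeries_on_ball h1 hz
  simp only [sub_zero, smul_eq_mul] at h2
  have e : (fun j => bc H k j * z ^ j) =
      fun n : ℕ => ((n.factorial : ℂ))⁻¹ * (z ^ n * iteratedDeriv n (fun z => H z ^ k) 0) := by
    funext j; rw [bc]; ring
  rw [e]; exact h2

theorem bc_zero (H : ℂ → ℂ) (k : ℕ) : bc H k 0 = H 0 ^ k := by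
  simp [bc]

/-- coefficients of `z ^ (N - k) * H z ^ k` -/
noncomputable def ac (H : ℂ → ℂ) (N k i : ℕ) : ℂ :=
  if N - k ≤ i then bc H k (i - (N - k)) else 0

theorem ac_hasSum {H : ℂ → ℂ} (hH : DifferentiableOn ℂ H (ball 0 1)) (N k : ℕ) {z : ℂ}
    (hz : z ∈ ball (0 : ℂ) 1) : HasSum (fun i => ac H N k i * z ^ i) (z ^ (N - k) * H z ^ k) := by
  have h1 := (bc_hasSum hH k hz).mul_left (z ^ (N - k))
  have hinj : Function.Injective (fun j : ℕ => j + (N - k)) := add_left_injective _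
  refine (hinj.hasSum_iff ?_).1 ?_
  · intro x hx
    rw [ac, if_neg, zero_mul]
    intro hle
    exact hx ⟨x - (N - k), Nat.sub_add_cancel hle⟩
  · have e : ((fun i => ac H N k i * z ^ i) ∘ fun j : ℕ => j + (N - k)) =
        fun j => z ^ (N - k) * (bc H k j * z ^ j) := by
      funext j
      simp only [Function.comp_apply, ac, Nat.le_add_left, if_true, Nat.add_sub_cancel]
      ring
    rw [e]; exact h1

/-- the triangular matrix of the principal parts of the powers of the map -/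
noncomputable def TM (H : ℂ → ℂ) (N : ℕ) : Matrix (Fin (N + 1)) (Fin (N + 1)) ℂ :=
  fun k j => ac H N k (N - j)

theorem det_TM (H : ℂ → ℂ) (N : ℕ) : (TM H N).det = ∏ k : Fin (N + 1), H 0 ^ (k : ℕ) := by
  rw [Matrix.det_of_lowerTriangular]
  · refine Finset.prod_congr rfl fun k _ => ?_
    rw [TM, ac, if_pos le_rfl, Nat.sub_self, bc_zero]
  · intro i j hij
    rw [OrderDual.toDual_lt_toDual] at hij
    rw [TM, ac, if_neg]
    have h1 := i.2
    have h2 := j.2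
    have h3 : (i : ℕ) < j := hij
    omega

theorem TM_unit {H : ℂ → ℂ} (h0 : H 0 ≠ 0) (N : ℕ) : IsUnit (TM H N).det := by
  rw [det_TM]
  exact (Finset.prod_ne_zero_iff.2 fun k _ => pow_ne_zero _ h0).isUnit

/-- the coefficients of the regular part of the Faber type polynomials -/
noncomputable def ee (H : ℂ → ℂ) (N : ℕ) (k : Fin (N + 1)) (l : ℕ) : ℂ :=
  ∑ j, (TM H N)⁻¹ k j * ac H N j (N + l)

/-- the coefficients of a combination of powers -/
noncomputable def al (H : ℂ → ℂ) (N : ℕ) (x : Fin (N + 1) → ℂ) (i : ℕ) : ℂ :=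
  ∑ j, (Matrix.vecMul x (TM H N)⁻¹) j * ac H N j i

theorem al_low {H : ℂ → ℂ} (h0 : H 0 ≠ 0) (N : ℕ) (x : Fin (N + 1) → ℂ) (j : Fin (N + 1)) :
    al H N x (N - j) = x j := by
  have h1 : Matrix.vecMul (Matrix.vecMul x (TM H N)⁻¹) (TM H N) j = x j := by
    rw [Matrix.vecMul_vecMul, Matrix.nonsing_inv_mul _ (TM_unit h0 N), Matrix.vecMul_one]
  rw [← h1]
  rfl

theorem al_high (H : ℂ → ℂ) (N : ℕ) (x : Fin (N + 1) → ℂ) (l : ℕ) :
    al H N x (N + l) = ∑ k, x k * ee H N k l := by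
  simp only [al, ee, Matrix.vecMul, dotProduct, Finset.sum_mul, Finset.mul_sum]
  rw [Finset.sum_comm]
  refine Finset.sum_congr rfl fun k _ => Finset.sum_congr rfl fun j _ => ?_
  ring

/-- the polynomial -/
noncomputable def Vx (H : ℂ → ℂ) (N : ℕ) (x : Fin (N + 1) → ℂ) (w : ℂ) : ℂ :=
  ∑ j : Fin (N + 1), (Matrix.vecMul x (TM H N)⁻¹) j * w ^ (j : ℕ)

/-- its transplantation -/
noncomputable def Px (H : ℂ → ℂ) (N : ℕ) (x : Fin (N + 1) → ℂ) (z : ℂ) : ℂ :=
  ∑ j : Fin (N + 1), (Matrix.vecMul x (TM H N)⁻¹) j * (z ^ (N - j) * H z ^ (j : ℕ))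

theorem Px_hasSum {H : ℂ → ℂ} (hH : DifferentiableOn ℂ H (ball 0 1)) (N : ℕ)
    (x : Fin (N + 1) → ℂ) {z : ℂ} (hz : z ∈ ball (0 : ℂ) 1) :
    HasSum (fun i => al H N x i * z ^ i) (Px H N x z) := by
  have h1 : ∀ j ∈ (Finset.univ : Finset (Fin (N + 1))),
      HasSum (fun i => (Matrix.vecMul x (TM H N)⁻¹) j * (ac H N j i * z ^ i))
        ((Matrix.vecMul x (TM H N)⁻¹) j * (z ^ (N - j) * H z ^ (j : ℕ))) := fun j _ =>
    (ac_hasSum hH N j hz).mul_left _
  have h2 := hasSum_sum h1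
  have e : (fun i => al H N x i * z ^ i) = fun i =>
      ∑ j : Fin (N + 1), (Matrix.vecMul x (TM H N)⁻¹) j * (ac H N j i * z ^ i) := by
    funext i
    rw [al, Finset.sum_mul]
    exact Finset.sum_congr rfl fun j _ => by ring
  rw [e]
  exact h2

theorem Vx_Px {h H : ℂ → ℂ} (hH : ∀ z ∈ Dp, H z = z * h z) (N : ℕ) (x : Fin (N + 1) → ℂ) {z : ℂ}
    (hz : z ∈ Dp) : Vx H N x (h z) * z ^ N = Px H N x z := by
  rw [Vx, Px, Finset.sum_mul]
  refine Finset.sum_congr rfl fun j _ => ?_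
  rw [hH z hz, mul_pow]
  have hj : N = (N - j) + j := by have := j.2; omega
  have e : z ^ N = z ^ (N - j) * z ^ (j : ℕ) := by
    rw [← pow_add]; congr 1
  rw [e]; ring

theorem Px_diff {H : ℂ → ℂ} (hH : DifferentiableOn ℂ H (ball 0 1)) (N : ℕ)
    (x : Fin (N + 1) → ℂ) : DifferentiableOn ℂ (Px H N x) (ball 0 1) := by
  unfold Px
  apply DifferentiableOn.fun_sum
  intro j _
  exact (differentiableOn_const _).mul (((differentiable_id.pow _).differentiableOn).mul (hH.pow _))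

theorem Vx_diff (H : ℂ → ℂ) (N : ℕ) (x : Fin (N + 1) → ℂ) : Differentiable ℂ (Vx H N x) := by
  unfold Vx
  fun_prop

end Pool.Agent.Y257.Dm
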