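import Mathlib
import Pool.Agent.Y257.Dm.Coef

/-!
# The Grunsky type inequality and the determinant
-/

set_option autoImplicit false

open Complex Filter Topology Set Metric

namespace Pool.Agent.Y257.Dm

open Pool.Agent.Helper405.Area (Dp)

theorem summable_area {a : ℕ → ℂ} {P : ℂ → ℂ}
    (ha : ∀ z ∈ ball (0 : ℂ) 1, HasSum (fun j => a j * z ^ j) (P z)) {r : ℝ} (hr0 : 0 < r)
    (hr1 : r < 1) (m : ℕ) : Summable fun j : ℕ => ((j : ℝ) - m) * ‖a j‖ ^ 2 * r ^ (2 * j) := by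
  have hQ := Pool.Agent.Helper405.Area.hasSum_Q ha m
  have hz : ∀ z : ℂ, ‖z‖ = r → z ∈ ball (0 : ℂ) 1 := fun z hz => by
    rw [mem_ball_zero_iff, hz]; exact hr1
  have h1 := Pool.Agent.Helper405.Area.parseval hr0.le
    (Pool.Agent.Helper405.Area.summable_of_hasSum ha hr0.le hr1)
    (Pool.Agent.Helper405.Area.summable_of_hasSum hQ hr0.le hr1)
    (fun z h => ha z (hz z h)) (fun z h => hQ z (hz z h))
  have h2 := (h1.summable.mapL Complex.reCLM)
  refine h2.congr fun j => ?_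
  have e : (starRingEnd ℂ) (a j) * (((j : ℂ) - m) * a j) * ((r ^ (2 * j) : ℝ) : ℂ) =
      ((((j : ℝ) - m) * ‖a j‖ ^ 2 * r ^ (2 * j) : ℝ) : ℂ) := by
    have : a j * (starRingEnd ℂ) (a j) = ((‖a j‖ ^ 2 : ℝ) : ℂ) := by
      rw [Complex.mul_conj, Complex.normSq_eq_norm_sq]
    push_cast at this ⊢
    rw [← this]; ring
  rw [e, Complex.reCLM_apply, Complex.ofReal_re]

theorem grunsky {h H : ℂ → ℂ} (hd : DifferentiableOn ℂ h Dp) (hi : InjOn h Dp)
    (hp : Tendsto h (𝓝[≠] 0) (Bornology.cobounded ℂ)) (hH : DifferentiableOn ℂ H (ball 0 1))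
    (hHz : ∀ z ∈ Dp, H z = z * h z) (h0 : H 0 ≠ 0) (N : ℕ) (x : Fin (N + 1) → ℂ) (l : ℕ)
    (hl : 1 ≤ l) :
    (l : ℝ) * ‖∑ k, x k * ee H N k l‖ ^ 2 ≤ ∑ k : Fin (N + 1), (k : ℝ) * ‖x k‖ ^ 2 := by
  rw [← al_high]
  set a := al H N x with ha
  have hsum : ∀ z ∈ ball (0 : ℂ) 1, HasSum (fun j => a j * z ^ j) (Px H N x z) := fun z hz =>
    Px_hasSum hH N x hz
  have hlow : ∑ i ∈ Finset.range (N + 1), ((N : ℝ) - i) * ‖a i‖ ^ 2 =
      ∑ k : Fin (N + 1), (k : ℝ) * ‖x k‖ ^ 2 := by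
    rw [← Finset.sum_range_reflect, ← Fin.sum_univ_eq_sum_range
      (fun j => ((N : ℝ) - ((N + 1 - 1 - j : ℕ) : ℝ)) * ‖a (N + 1 - 1 - j)‖ ^ 2)]
    refine Finset.sum_congr rfl fun k _ => ?_
    have hk := k.2
    have e1 : N + 1 - 1 - (k : ℕ) = N - k := by omega
    rw [e1, ha, al_low h0, Nat.cast_sub (by omega)]
    ring
  have hr : ∀ r ∈ Ioo (0 : ℝ) 1, (l : ℝ) * ‖a (N + l)‖ ^ 2 * r ^ (2 * (N + l)) ≤
      ∑ k : Fin (N + 1), (k : ℝ) * ‖x k‖ ^ 2 := by
    intro r hr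
    have h1 := Pool.Agent.Helper405.Area.area hd hi hp (Vx_diff H N x) (Px_diff hH N x)
      (m := N) (fun z hz => Vx_Px hHz N x hz) hsum hr.1 hr.2
    have h2 := summable_area hsum hr.1 hr.2 N
    set f : ℕ → ℝ := fun j => ((j : ℝ) - N) * ‖a j‖ ^ 2 * r ^ (2 * j) with hf
    have h3 : ∑ i ∈ insert (N + l) (Finset.range (N + 1)), f i ≤ ∑' i, f i := by
      refine h2.sum_le_tsum _ ?_
      intro i hi
      rw [Finset.mem_insert, Finset.mem_range, not_or] at hi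
      have : (N : ℝ) ≤ i := by
        exact_mod_cast (by omega : N ≤ i)
      simp only [hf]
      have : 0 ≤ (i : ℝ) - N := by linarith
      have := hr.1
      positivity
    rw [Finset.sum_insert (by rw [Finset.mem_range]; omega)] at h3
    have h4 : f (N + l) = (l : ℝ) * ‖a (N + l)‖ ^ 2 * r ^ (2 * (N + l)) := by
      simp only [hf]
      push_cast
      ring
    have h5 : -(∑ i ∈ Finset.range (N + 1), ((N : ℝ) - i) * ‖a i‖ ^ 2) ≤
        ∑ i ∈ Finset.range (N + 1), f i := by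
      rw [← Finset.sum_neg_distrib]
      refine Finset.sum_le_sum fun i hi => ?_
      rw [Finset.mem_range] at hi
      have hiN : (i : ℝ) ≤ N := by exact_mod_cast (by omega : i ≤ N)
      simp only [hf]
      have h6 : r ^ (2 * i) ≤ 1 := pow_le_one₀ hr.1.le hr.2.le
      have h7 : 0 ≤ ((N : ℝ) - i) * ‖a i‖ ^ 2 := by
        have : 0 ≤ (N : ℝ) - i := by linarith
        positivity
      nlinarith
    rw [hlow] at h5
    rw [h4] at h3
    linarith
  have hlim : Tendsto (fun r : ℝ => (l : ℝ) * ‖a (N + l)‖ ^ 2 * r ^ (2 * (N + l))) (𝓝[<] 1)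
      (𝓝 ((l : ℝ) * ‖a (N + l)‖ ^ 2 * 1 ^ (2 * (N + l)))) := by
    have : Continuous fun r : ℝ => (l : ℝ) * ‖a (N + l)‖ ^ 2 * r ^ (2 * (N + l)) := by fun_prop
    exact (this.tendsto 1).mono_left nhdsWithin_le_nhds
  rw [one_pow, mul_one] at hlim
  refine le_of_tendsto hlim ?_
  filter_upwards [Ioo_mem_nhdsLT (show (0 : ℝ) < 1 by norm_num)] with r hr'
  exact hr r hr'

theorem col_bound {h H : ℂ → ℂ} (hd : DifferentiableOn ℂ h Dp) (hi : InjOn h Dp)
    (hp : Tendsto h (𝓝[≠] 0) (Bornology.cobounded ℂ)) (hH : DifferentiableOn ℂ H (ball 0 1))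
    (hHz : ∀ z ∈ Dp, H z = z * h z) (h0 : H 0 ≠ 0) (N : ℕ) (l : ℕ) (hl : 1 ≤ l) :
    ∑ k : Fin (N + 1), ‖ee H N k l‖ ^ 2 ≤ N / l := by
  have hl0 : (0 : ℝ) < l := by exact_mod_cast hl
  -- the coefficient with `k = 0` vanishes
  have hz0 : ee H N 0 l = 0 := by
    have h1 := grunsky hd hi hp hH hHz h0 N (Pi.single 0 1) l hl
    have e1 : ∑ k, (Pi.single (0 : Fin (N + 1)) (1 : ℂ) : Fin (N + 1) → ℂ) k * ee H N k l =
        ee H N 0 l := by
      simp [Pi.single_apply]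
    have e2 : ∑ k : Fin (N + 1), (k : ℝ) * ‖(Pi.single (0 : Fin (N + 1)) (1 : ℂ) :
        Fin (N + 1) → ℂ) k‖ ^ 2 = 0 := by
      refine Finset.sum_eq_zero fun k _ => ?_
      by_cases hk : k = 0
      · rw [hk]; simp
      · rw [Pi.single_eq_of_ne hk]; simp
    rw [e1, e2] at h1
    have h2 : ‖ee H N 0 l‖ ^ 2 ≤ 0 := by
      by_contra hcon
      push Not at hcon
      have := mul_pos hl0 hcon
      linarith
    have h3 : ‖ee H N 0 l‖ = 0 := by
      have := le_antisymm h2 (sq_nonneg _)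
      exact pow_eq_zero_iff (two_ne_zero) |>.1 this
    exact norm_eq_zero.1 h3
  set x : Fin (N + 1) → ℂ := fun k => if (k : ℕ) = 0 then 0 else
    (starRingEnd ℂ) (ee H N k l) / (k : ℂ) with hx
  set s : ℝ := ∑ k : Fin (N + 1), ‖ee H N k l‖ ^ 2 / (k : ℝ) with hs
  have hs0 : 0 ≤ s := Finset.sum_nonneg fun k _ => by positivity
  have h1 := grunsky hd hi hp hH hHz h0 N x l hl
  have e1 : ∑ k, x k * ee H N k l = (s : ℂ) := by
    rw [hs]
    push_cast
    refine Finset.sum_congr rfl fun k _ => ?_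
    simp only [hx]
    split_ifs with hk
    · rw [hk]; simp
    · have : (starRingEnd ℂ) (ee H N k l) * ee H N k l = ((‖ee H N k l‖ ^ 2 : ℝ) : ℂ) := by
        rw [mul_comm, Complex.mul_conj, Complex.normSq_eq_norm_sq]
      push_cast at this
      rw [div_mul_eq_mul_div, this]
  have e2 : ∑ k : Fin (N + 1), (k : ℝ) * ‖x k‖ ^ 2 = s := by
    rw [hs]
    refine Finset.sum_congr rfl fun k _ => ?_
    simp only [hx]
    split_ifs with hk
    · rw [hk]; simp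
    · have hk0 : (0 : ℝ) < k := by exact_mod_cast Nat.pos_of_ne_zero hk
      rw [norm_div, RCLike.norm_conj, Complex.norm_natCast]
      field_simp
  rw [e1, e2, Complex.norm_real, Real.norm_of_nonneg hs0] at h1
  have hs1 : s ≤ 1 / l := by
    rw [le_div_iff₀ hl0]
    by_contra hcon
    push Not at hcon
    have hsp : 0 < s := by
      rcases hs0.eq_or_lt with h | h
      · rw [← h] at hcon; linarith
      · exact h
    nlinarith
  have h3 : ∑ k : Fin (N + 1), ‖ee H N k l‖ ^ 2 ≤ N * s := by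
    rw [hs, Finset.mul_sum]
    refine Finset.sum_le_sum fun k _ => ?_
    by_cases hk : (k : ℕ) = 0
    · have : k = 0 := Fin.ext hk
      rw [this, hz0]
      simp
    · have hk0 : (0 : ℝ) < k := by exact_mod_cast Nat.pos_of_ne_zero hk
      have hkN : (k : ℝ) ≤ N := by
        have := k.2
        exact_mod_cast (by omega : (k : ℕ) ≤ N)
      rw [mul_div_assoc', le_div_iff₀ hk0]
      nlinarith [sq_nonneg ‖ee H N k l‖]
  calc ∑ k : Fin (N + 1), ‖ee H N k l‖ ^ 2 ≤ N * s := h3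
    _ ≤ N * (1 / l) := by gcongr
    _ = N / l := by ring

/-- the transplanted Vandermonde matrix -/
theorem vdm_hasSum {h H : ℂ → ℂ} (hH : DifferentiableOn ℂ H (ball 0 1))
    (hHz : ∀ z ∈ Dp, H z = z * h z) (h0 : H 0 ≠ 0) (N : ℕ) (k : Fin (N + 1)) {z : ℂ}
    (hz : z ∈ Dp) :
    HasSum (fun l : ℕ => ee H N k (l + 1) * z ^ (l + 1))
      (∑ j, (TM H N)⁻¹ k j * h z ^ (j : ℕ) - (z⁻¹) ^ (k : ℕ)) := by
  have hz0 : z ≠ 0 := hz.2
  set x : Fin (N + 1) → ℂ := Pi.single k 1 with hx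
  have h1 := Px_hasSum hH N x hz.1
  rw [← Vx_Px hHz N x hz] at h1
  have hv : Matrix.vecMul x (TM H N)⁻¹ = (TM H N)⁻¹ k := by
    rw [hx, Matrix.single_one_vecMul]
    rfl
  have hV : Vx H N x (h z) = ∑ j, (TM H N)⁻¹ k j * h z ^ (j : ℕ) := by
    rw [Vx, hv]
  rw [hV] at h1
  have h2 := (hasSum_nat_add_iff' (N + 1)).2 h1
  have e1 : ∑ i ∈ Finset.range (N + 1), al H N x i * z ^ i = z ^ (N - k) := by
    rw [← Finset.sum_range_reflect, ← Fin.sum_univ_eq_sum_range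
      (fun j => al H N x (N + 1 - 1 - j) * z ^ (N + 1 - 1 - j))]
    have : ∀ j : Fin (N + 1), al H N x (N + 1 - 1 - (j : ℕ)) * z ^ (N + 1 - 1 - (j : ℕ)) =
        x j * z ^ (N - (j : ℕ)) := by
      intro j
      have e : N + 1 - 1 - (j : ℕ) = N - j := by omega
      rw [e, al_low h0]
    rw [Finset.sum_congr rfl fun j _ => this j]
    simp [hx, Pi.single_apply]
  rw [e1] at h2
  have h3 := h2.mul_left ((z ^ N)⁻¹)
  have e2 : (z ^ N)⁻¹ * ((∑ j, (TM H N)⁻¹ k j * h z ^ (j : ℕ)) * z ^ N - z ^ (N - k)) =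
      ∑ j, (TM H N)⁻¹ k j * h z ^ (j : ℕ) - (z⁻¹) ^ (k : ℕ) := by
    have hk := k.2
    have e3 : z ^ N = z ^ (N - k) * z ^ (k : ℕ) := by
      rw [← pow_add]; congr 1; omega
    have e4 : z ^ (N - (k : ℕ)) ≠ 0 := pow_ne_zero _ hz0
    have e5 : z ^ (k : ℕ) ≠ 0 := pow_ne_zero _ hz0
    rw [e3, inv_pow]
    field_simp
  rw [e2] at h3
  have e6 : (fun l : ℕ => ee H N k (l + 1) * z ^ (l + 1)) =
      fun n => (z ^ N)⁻¹ * (al H N x (n + (N + 1)) * z ^ (n + (N + 1))) := by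
    funext l
    have e7 : l + (N + 1) = N + (l + 1) := by ring
    rw [e7, al_high]
    have e8 : ∑ k', x k' * ee H N k' (l + 1) = ee H N k (l + 1) := by
      simp [hx, Pi.single_apply]
    rw [e8, pow_add z N (l + 1)]
    have : z ^ N ≠ 0 := pow_ne_zero _ hz0
    field_simp
  rw [e6]
  exact h3

end Pool.Agent.Y257.Dm
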