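import Mathlib

/-!
# Numerical estimates
-/

set_option autoImplicit false

open Finset

namespace Pool.Agent.Y257.Dm

/-- the radius -/
noncomputable def qq (n : ℕ) : ℝ := (n : ℝ) / (n + 1)

theorem qq_pos {n : ℕ} (hn : 1 ≤ n) : 0 < qq n := by
  unfold qq
  have : (0 : ℝ) < n := by exact_mod_cast hn
  positivity

theorem qq_lt (n : ℕ) : qq n < 1 := by
  unfold qq
  rw [div_lt_one (by positivity)]
  linarith

theorem qq_inv {n : ℕ} (hn : 1 ≤ n) : (qq n)⁻¹ = 1 + 1 / n := by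
  unfold qq
  have : (0 : ℝ) < n := by exact_mod_cast hn
  field_simp

theorem one_sub_qq (n : ℕ) : 1 - qq n = 1 / (n + 1) := by
  unfold qq
  field_simp
  ring

theorem qq_pow {n : ℕ} (hn : 1 ≤ n) : qq n ^ n ≤ 1 / 2 := by
  have h0 : (0 : ℝ) < n := by exact_mod_cast hn
  have h1 : (2 : ℝ) ≤ ((qq n)⁻¹) ^ n := by
    rw [qq_inv hn]
    have h := one_add_mul_le_pow (a := (1 : ℝ) / n) (by have : 0 ≤ (1:ℝ) / n := by positivity
                                                        linarith) n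
    have e : (1 : ℝ) + n * (1 / n) = 2 := by field_simp; norm_num
    linarith
  rw [inv_pow] at h1
  have h2 : 0 < qq n ^ n := pow_pos (qq_pos hn) n
  rw [le_inv_comm₀ (by norm_num) h2] at h1
  linarith

theorem geom_le {q : ℝ} (h0 : 0 ≤ q) (h1 : q < 1) (a L : ℕ) :
    ∑ l ∈ range L, q ^ (a + l) ≤ q ^ a / (1 - q) := by
  have h2 : ∑ l ∈ range L, q ^ (a + l) = q ^ a * ∑ l ∈ range L, q ^ l := by
    rw [mul_sum]
    exact sum_congr rfl fun l _ => pow_add q a l
  rw [h2, div_eq_mul_inv]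
  gcongr
  have h3 := (summable_geometric_of_lt_one h0 h1).sum_le_tsum (range L) (fun i _ => pow_nonneg h0 i)
  rwa [tsum_geometric_of_lt_one h0 h1] at h3

theorem prod_choose (N m : ℕ) :
    ∏ l ∈ range m, (1 + (N : ℝ) / (l + 1)) = ((N + m).choose m : ℝ) := by
  induction m with
  | zero => simp
  | succ m ih =>
    rw [prod_range_succ, ih]
    have h1 := Nat.add_one_mul_choose_eq (N + m) m
    have h2 : ((N + m + 1 : ℕ) : ℝ) * ((N + m).choose m : ℝ) =
        ((N + m + 1).choose (m + 1) : ℝ) * ((m + 1 : ℕ) : ℝ) := by exact_mod_cast h1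
    have h3 : ((m : ℝ) + 1) ≠ 0 := by positivity
    have e : N + (m + 1) = N + m + 1 := by ring
    rw [e]
    push_cast at h2
    field_simp
    linarith

theorem prod_bound (N L : ℕ) :
    ∏ l ∈ range L, (1 + qq (N + 1) ^ (l + 1) * (N / (l + 1))) ≤
      4 ^ N * Real.exp (((N : ℝ) + 2) / 2) := by
  set q := qq (N + 1) with hq
  have hq0 : 0 < q := qq_pos (by omega)
  have hq1 : q < 1 := qq_lt _
  set g : ℕ → ℝ := fun l => if l < N then 1 + (N : ℝ) / (l + 1) else Real.exp (q ^ (l + 1)) with hg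
  have hg1 : ∀ l, 1 ≤ g l := by
    intro l
    simp only [hg]
    split_ifs
    · have : (0 : ℝ) ≤ (N : ℝ) / (l + 1) := by positivity
      linarith
    · exact Real.one_le_exp (by positivity)
  have h1 : ∏ l ∈ range L, (1 + q ^ (l + 1) * (N / (l + 1))) ≤ ∏ l ∈ range L, g l := by
    refine prod_le_prod (fun l _ => by positivity) fun l _ => ?_
    simp only [hg]
    split_ifs with hl
    · have h2 : q ^ (l + 1) ≤ 1 := pow_le_one₀ hq0.le hq1.le
      have h3 : (0 : ℝ) ≤ (N : ℝ) / (l + 1) := by positivity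
      nlinarith
    · have h2 : (N : ℝ) / (l + 1) ≤ 1 := by
        rw [div_le_one (by positivity)]
        have : (N : ℝ) ≤ l := by exact_mod_cast not_lt.1 hl
        linarith
      have h3 : 0 ≤ q ^ (l + 1) := by positivity
      have h4 := Real.add_one_le_exp (q ^ (l + 1))
      nlinarith
  have h2 : ∏ l ∈ range L, g l ≤ ∏ l ∈ range (N + L), g l := by
    rw [add_comm N L, prod_range_add]
    have h5 : (1 : ℝ) ≤ ∏ x ∈ range N, g (L + x) := by
      have := prod_le_prod (s := range N) (f := fun _ => (1 : ℝ)) (g := fun x => g (L + x))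
        (fun _ _ => zero_le_one) (fun x _ => hg1 (L + x))
      simpa using this
    have h6 : 0 ≤ ∏ l ∈ range L, g l := prod_nonneg fun l _ => by linarith [hg1 l]
    nlinarith
  have h3 : ∏ l ∈ range N, g l ≤ 4 ^ N := by
    have e : ∏ l ∈ range N, g l = ∏ l ∈ range N, (1 + (N : ℝ) / (l + 1)) := by
      refine prod_congr rfl fun l hl => ?_
      simp only [hg]
      rw [if_pos (mem_range.1 hl)]
    rw [e, prod_choose]
    have h4 := Nat.choose_le_two_pow (N + N) N
    calc ((N + N).choose N : ℝ) ≤ ((2 ^ (N + N) : ℕ) : ℝ) := by exact_mod_cast h4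
      _ = 4 ^ N := by
        push_cast
        rw [← two_mul, pow_mul]
        norm_num
  have h4 : ∏ l ∈ range L, g (N + l) ≤ Real.exp (((N : ℝ) + 2) / 2) := by
    have e : ∏ l ∈ range L, g (N + l) = Real.exp (∑ l ∈ range L, q ^ ((N + 1) + l)) := by
      rw [Real.exp_sum]
      refine prod_congr rfl fun l _ => ?_
      simp only [hg]
      rw [if_neg (by omega)]
      congr 2
      ring
    rw [e]
    apply Real.exp_le_exp.2
    refine (geom_le hq0.le hq1 (N + 1) L).trans ?_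
    rw [hq, one_sub_qq, div_div_eq_mul_div, div_one]
    have h5 := qq_pow (n := N + 1) (by omega)
    push_cast
    have h6 : (0 : ℝ) ≤ (N : ℝ) + 1 + 1 := by positivity
    nlinarith
  calc ∏ l ∈ range L, (1 + q ^ (l + 1) * (N / (l + 1))) ≤ ∏ l ∈ range (N + L), g l := h1.trans h2
    _ = (∏ l ∈ range N, g l) * ∏ l ∈ range L, g (N + l) := prod_range_add _ _ _
    _ ≤ 4 ^ N * Real.exp (((N : ℝ) + 2) / 2) := by
      apply mul_le_mul h3 h4
      · exact prod_nonneg fun l _ => by linarith [hg1 (N + l)]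
      · positivity

theorem e_sq : Real.exp 1 ^ 2 ≤ 7.3891 := by
  have h1 := Real.exp_one_lt_d9
  have h2 := Real.exp_pos 1
  nlinarith

theorem head_sum {n : ℕ} (hn : 1 ≤ n) :
    ∑ k ∈ range n, ((qq n)⁻¹ ^ k) ^ 2 ≤ 3.2 * n := by
  have h0 : (0 : ℝ) < n := by exact_mod_cast hn
  have h1 : (1 : ℝ) ≤ n := by exact_mod_cast hn
  set t : ℝ := (1 + 1 / n) ^ 2 with ht
  have ht1 : t - 1 = 2 / n + 1 / n ^ 2 := by rw [ht]; field_simp; ring
  have htp : 2 / (n : ℝ) ≤ t - 1 := by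
    rw [ht1]
    have : (0 : ℝ) ≤ 1 / n ^ 2 := by positivity
    linarith
  have htp0 : 0 < t - 1 := lt_of_lt_of_le (by positivity) htp
  have e1 : ∑ k ∈ range n, ((qq n)⁻¹ ^ k) ^ 2 = ∑ k ∈ range n, t ^ k := by
    refine sum_congr rfl fun k _ => ?_
    rw [qq_inv hn, ht, ← pow_mul, ← pow_mul, mul_comm]
  rw [e1, geom_sum_eq (by linarith : t ≠ 1)]
  have h2 : t ^ n ≤ 7.3891 := by
    have h3 : (1 + 1 / (n : ℝ)) ^ n ≤ Real.exp 1 := by
      have h4 : (1 + 1 / (n : ℝ)) ≤ Real.exp (1 / n) := by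
        have := Real.add_one_le_exp (1 / (n : ℝ))
        linarith
      calc (1 + 1 / (n : ℝ)) ^ n ≤ (Real.exp (1 / n)) ^ n := by gcongr
        _ = Real.exp 1 := by
          rw [← Real.exp_nat_mul]
          congr 1
          field_simp
    have e2 : t ^ n = ((1 + 1 / (n : ℝ)) ^ n) ^ 2 := by
      rw [ht, ← pow_mul, ← pow_mul, mul_comm]
    rw [e2]
    refine le_trans ?_ e_sq
    gcongr
  rw [div_le_iff₀ htp0]
  have h5 : 3.2 * (n : ℝ) * (2 / n) = 6.4 := by field_simp; norm_num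
  have h6 : 3.2 * (n : ℝ) * (2 / n) ≤ 3.2 * n * (t - 1) := by gcongr
  linarith

theorem tail_sum {n : ℕ} (hn : 1 ≤ n) (L : ℕ) : ∑ l ∈ range L, (qq n) ^ (l + 1) ≤ n := by
  have h1 := geom_le (qq_pos hn).le (qq_lt n) 1 L
  have h2 : qq n ^ 1 / (1 - qq n) = n := by
    rw [one_sub_qq, pow_one]
    unfold qq
    field_simp
  rw [h2] at h1
  refine le_trans (le_of_eq ?_) h1
  exact sum_congr rfl fun l _ => by rw [add_comm]

theorem final_num (N : ℕ) :
    4 ^ N * Real.exp (((N : ℝ) + 2) / 2) * (4.2 * ((N : ℝ) + 1)) ^ (N + 1) ≤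
      (28 * ((N : ℝ) + 1)) ^ (N + 1) := by
  set x := Real.exp (1 / 2) with hx
  have hx0 : 0 < x := Real.exp_pos _
  have hx2 : x ^ 2 = Real.exp 1 := by
    rw [hx, ← Real.exp_nat_mul]; norm_num
  have hx1 : x ≤ 1.6488 := by
    have h1 := Real.exp_one_lt_d9
    by_contra hcon
    push Not at hcon
    have : (1.6488 : ℝ) ^ 2 < x ^ 2 := by gcongr
    rw [hx2] at this
    norm_num at this
    linarith
  have e1 : Real.exp (((N : ℝ) + 2) / 2) = x ^ (N + 1) * x := by
    rw [← pow_succ, hx, ← Real.exp_nat_mul]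
    congr 1
    push_cast
    ring
  rw [e1]
  have e2 : (4 : ℝ) ^ N * (x ^ (N + 1) * x) * (4.2 * ((N : ℝ) + 1)) ^ (N + 1) =
      (x / 4) * (4 * x * 4.2 * ((N : ℝ) + 1)) ^ (N + 1) := by
    rw [mul_pow, mul_pow, mul_pow, mul_pow, pow_succ (4 : ℝ) N]
    ring
  rw [e2]
  have h3 : x / 4 ≤ 1 := by linarith
  have h4 : (4 * x * 4.2 * ((N : ℝ) + 1)) ^ (N + 1) ≤ (28 * ((N : ℝ) + 1)) ^ (N + 1) := by
    gcongr
    nlinarith
  calc (x / 4) * (4 * x * 4.2 * ((N : ℝ) + 1)) ^ (N + 1) ≤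
      1 * (4 * x * 4.2 * ((N : ℝ) + 1)) ^ (N + 1) := by gcongr
    _ ≤ _ := by rw [one_mul]; exact h4

end Pool.Agent.Y257.Dm
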