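import Mathlib
import Pool.Agent.Y257.Dm.Gr
import Pool.Agent.Y257.Dm.Num

/-!
# The Vandermonde determinant on the level curve
-/

set_option autoImplicit false

open Complex Filter Topology Set Metric

namespace Pool.Agent.Y257.Dm

open Pool.Agent.Helper405.Area (Dp)

theorem det_level {h H : ℂ → ℂ} (hd : DifferentiableOn ℂ h Dp) (hi : InjOn h Dp)
    (hp : Tendsto h (𝓝[≠] 0) (Bornology.cobounded ℂ)) (hH : DifferentiableOn ℂ H (ball 0 1))
    (hHz : ∀ z ∈ Dp, H z = z * h z) (h0 : H 0 ≠ 0) (N : ℕ) (z : Fin (N + 1) → ℂ)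
    (hz : ∀ i, ‖z i‖ = qq (N + 1)) :
    ‖(Matrix.vandermonde (fun i => h (z i))).det‖ ^ 2 ≤
      (∏ k : Fin (N + 1), ‖H 0‖ ^ (k : ℕ)) ^ 2 * (28 * ((N : ℝ) + 1)) ^ (N + 1) := by
  set q := qq (N + 1) with hq
  have hq0 : 0 < q := qq_pos (by omega)
  have hq1 : q < 1 := qq_lt _
  have hzD : ∀ i, z i ∈ Dp := by
    intro i
    refine ⟨?_, ?_⟩
    · rw [mem_ball_zero_iff, hz i]; exact hq1
    · intro h
      have h1 : z i = 0 := h
      have := hz i
      rw [h1, norm_zero] at this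
      linarith
  set Vt : Matrix (Fin (N + 1)) (Fin (N + 1)) ℂ := (Matrix.vandermonde (fun i => h (z i))).transpose
    with hVt
  set M : Matrix (Fin (N + 1)) (Fin (N + 1)) ℂ := (TM H N)⁻¹ * Vt with hM
  have hTu := TM_unit h0 N
  have hVM : Vt = TM H N * M := by
    rw [hM, ← Matrix.mul_assoc, Matrix.mul_nonsing_inv _ hTu, Matrix.one_mul]
  have hdet : (Matrix.vandermonde (fun i => h (z i))).det = (TM H N).det * M.det := by
    rw [← Matrix.det_mul, ← hVM, hVt, Matrix.det_transpose]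
  have hMv : ∀ k i, M k i = ∑ j, (TM H N)⁻¹ k j * h (z i) ^ (j : ℕ) := by
    intro k i
    rw [hM, Matrix.mul_apply]
    refine Finset.sum_congr rfl fun j _ => ?_
    rw [hVt, Matrix.transpose_apply, Matrix.vandermonde_apply]
  set A : Matrix (Fin (N + 1)) (Fin (N + 1)) ℂ := fun k i => ((z i)⁻¹) ^ (k : ℕ) with hA
  set w : ℕ → ℝ := fun l => Real.sqrt (q ^ (l + 1)) with hw
  have hw0 : ∀ l, 0 < w l := fun l => Real.sqrt_pos.2 (pow_pos hq0 _)
  have hw2 : ∀ l, w l ^ 2 = q ^ (l + 1) := fun l => Real.sq_sqrt (pow_pos hq0 _).le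
  set Z : (L : ℕ) → Matrix (Fin (N + 1)) (Fin L) ℂ := fun L k l =>
    ee H N k (l + 1) * (w l : ℂ) with hZ
  set B : (L : ℕ) → Matrix (Fin L) (Fin (N + 1)) ℂ := fun L l i =>
    (z i) ^ ((l : ℕ) + 1) / (w l : ℂ) with hB
  have hlim : Tendsto (fun L => (A + Z L * B L).det) atTop (𝓝 M.det) := by
    have h1 : Tendsto (fun L => A + Z L * B L) atTop (𝓝 M) := by
      refine tendsto_pi_nhds.2 fun k => tendsto_pi_nhds.2 fun i => ?_
      have h2 := (vdm_hasSum hH hHz h0 N k (hzD i)).tendsto_sum_nat.const_add (((z i)⁻¹) ^ (k : ℕ))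
      rw [← hMv, add_sub_cancel] at h2
      refine h2.congr fun L => ?_
      rw [Matrix.add_apply, Matrix.mul_apply, ← Fin.sum_univ_eq_sum_range
        (fun l => ee H N k (l + 1) * z i ^ (l + 1))]
      congr 1
      refine Finset.sum_congr rfl fun l _ => ?_
      have : (w l : ℂ) ≠ 0 := by exact_mod_cast (hw0 l).ne'
      simp only [hZ, hB]
      field_simp
    exact ((Continuous.matrix_det continuous_id).tendsto M).comp h1
  have hbd : ∀ L, ‖(A + Z L * B L).det‖ ^ 2 ≤ (28 * ((N : ℝ) + 1)) ^ (N + 1) := by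
    intro L
    refine (det_bound A (Z L) (B L)).trans ?_
    have h1 : ∏ l : Fin L, (1 + ∑ k, ‖Z L k l‖ ^ 2) ≤ 4 ^ N * Real.exp (((N : ℝ) + 2) / 2) := by
      refine le_trans ?_ (prod_bound N L)
      rw [← Fin.prod_univ_eq_prod_range (fun l => 1 + qq (N + 1) ^ (l + 1) * ((N : ℝ) / (l + 1)))]
      refine Finset.prod_le_prod (fun l _ => by positivity) fun l _ => ?_
      have h2 := col_bound hd hi hp hH hHz h0 N ((l : ℕ) + 1) (by omega)
      have h3 : ∑ k, ‖Z L k l‖ ^ 2 = q ^ ((l : ℕ) + 1) * ∑ k : Fin (N + 1), ‖ee H N k (l + 1)‖ ^ 2 := by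
        rw [Finset.mul_sum]
        refine Finset.sum_congr rfl fun k _ => ?_
        simp only [hZ]
        rw [norm_mul, mul_pow, Complex.norm_real, Real.norm_of_nonneg (hw0 l).le, hw2]
        ring
      rw [h3]
      push_cast at h2
      gcongr
    have h2 : ∏ i : Fin (N + 1), (∑ k, ‖A k i‖ ^ 2 + ∑ l, ‖B L l i‖ ^ 2) ≤
        (4.2 * ((N : ℝ) + 1)) ^ (N + 1) := by
      have h3 : ∀ i : Fin (N + 1), ∑ k, ‖A k i‖ ^ 2 + ∑ l, ‖B L l i‖ ^ 2 ≤ 4.2 * ((N : ℝ) + 1) := by
        intro i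
        have h4 : ∑ k, ‖A k i‖ ^ 2 ≤ 3.2 * ((N : ℝ) + 1) := by
          have h5 := head_sum (n := N + 1) (by omega)
          rw [← Fin.sum_univ_eq_sum_range (fun k => ((qq (N + 1))⁻¹ ^ k) ^ 2)] at h5
          push_cast at h5
          refine le_trans (le_of_eq ?_) h5
          refine Finset.sum_congr rfl fun k _ => ?_
          simp only [hA]
          rw [norm_pow, norm_inv, hz i]
        have h6 : ∑ l, ‖B L l i‖ ^ 2 ≤ (N : ℝ) + 1 := by
          have h5 := tail_sum (n := N + 1) (by omega) L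
          rw [← Fin.sum_univ_eq_sum_range (fun l => qq (N + 1) ^ (l + 1))] at h5
          push_cast at h5
          refine le_trans (le_of_eq ?_) h5
          refine Finset.sum_congr rfl fun l _ => ?_
          simp only [hB]
          rw [norm_div, norm_pow, hz i, Complex.norm_real, Real.norm_of_nonneg (hw0 l).le, div_pow,
            hw2, ← hq, div_eq_iff (pow_pos hq0 _).ne']
          ring
        linarith
      calc ∏ i : Fin (N + 1), (∑ k, ‖A k i‖ ^ 2 + ∑ l, ‖B L l i‖ ^ 2)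
          ≤ ∏ _i : Fin (N + 1), 4.2 * ((N : ℝ) + 1) :=
            Finset.prod_le_prod (fun i _ => by positivity) fun i _ => h3 i
        _ = (4.2 * ((N : ℝ) + 1)) ^ (N + 1) := by
          rw [Finset.prod_const, Finset.card_univ, Fintype.card_fin]
    refine le_trans (mul_le_mul h1 h2 ?_ (by positivity)) (final_num N)
    exact Finset.prod_nonneg fun i _ => by positivity
  have hfin : ‖M.det‖ ^ 2 ≤ (28 * ((N : ℝ) + 1)) ^ (N + 1) :=
    le_of_tendsto (hlim.norm.pow 2) (Eventually.of_forall hbd)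
  rw [hdet, norm_mul, mul_pow, det_TM, norm_prod]
  simp only [norm_pow]
  gcongr

end Pool.Agent.Y257.Dm
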