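import Mathlib
import Pool.Agent.Y257.Dm.Det
import Pool.Agent.H655R3.DiaMain

/-!
# Maximum principle on the level curves and the Chebyshev lower bound
-/

set_option autoImplicit false

open Complex Filter Topology Set Metric

namespace Pool.Agent.Y257.Dm

open Pool.Agent.Helper405.Area (Dp)
open Pool.Agent.H655R3.Dia

/-- maximum principle: an entire function is at most its maximum over the level curve -/
theorem max_level {h : ℂ → ℂ} (hd : DifferentiableOn ℂ h Dp) (hi : InjOn h Dp)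
    (hp : Tendsto h (𝓝[≠] 0) (Bornology.cobounded ℂ)) {Γ : Set ℂ} (hΓ : ∀ z ∈ Dp, h z ∉ Γ)
    {ρ : ℝ} (h0 : 0 < ρ) (h1 : ρ < 1) {f : ℂ → ℂ} (hf : Differentiable ℂ f) {w : ℂ} (hw : w ∈ Γ) :
    ∃ z : ℂ, ‖z‖ = ρ ∧ ‖f w‖ ≤ ‖f (h z)‖ := by
  have hρ2 : ρ ^ 2 < 1 := by nlinarith
  have hρ2' : 0 < ρ ^ 2 := by positivity
  set K : Set ℂ := h '' {z | z ≠ 0 ∧ ‖z‖ ^ 2 ≤ ρ ^ 2} with hK
  have hKc : IsClosed K := Pool.Agent.Helper405.Area.image_closed hd hp hρ2
  obtain ⟨M, hM⟩ := Pool.Agent.Helper405.Area.image_cofinal hd hp hρ2' hρ2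
  have hle : ∀ z : ℂ, ‖z‖ ^ 2 ≤ ρ ^ 2 → ‖z‖ ≤ ρ := fun z hz =>
    le_of_sq_le_sq hz h0.le
  have hsub : {z : ℂ | z ≠ 0 ∧ ‖z‖ ^ 2 ≤ ρ ^ 2} ⊆ Dp := by
    rintro z ⟨hz0, hz⟩
    refine ⟨?_, hz0⟩
    rw [mem_ball_zero_iff]
    exact (hle z hz).trans_lt h1
  have hwK : w ∈ Kᶜ := by
    rintro ⟨z, hz, rfl⟩
    exact hΓ z (hsub hz) hw
  have hb : Bornology.IsBounded Kᶜ := by
    refine (Metric.isBounded_ball (x := (0 : ℂ)) (r := M)).subset ?_
    intro v hv
    rw [mem_ball_zero_iff]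
    by_contra hcon
    exact hv (hM v (not_lt.1 hcon))
  have hsph : IsCompact (sphere (0 : ℂ) ρ) := isCompact_sphere 0 ρ
  have hsD : sphere (0 : ℂ) ρ ⊆ Dp := by
    intro z hz
    rw [mem_sphere_zero_iff_norm] at hz
    refine ⟨by rw [mem_ball_zero_iff, hz]; exact h1, ?_⟩
    intro h
    have : z = 0 := h
    rw [this, norm_zero] at hz
    linarith
  have hcont : ContinuousOn (fun z => ‖f (h z)‖) (sphere (0 : ℂ) ρ) :=
    (hf.continuous.comp_continuousOn (hd.continuousOn.mono hsD)).norm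
  obtain ⟨z0, hz0, hmax⟩ := hsph.exists_isMaxOn (NormedSpace.sphere_nonempty.2 h0.le) hcont
  refine ⟨z0, mem_sphere_zero_iff_norm.1 hz0, ?_⟩
  refine Complex.norm_le_of_forall_mem_frontier_norm_le hb hf.diffContOnCl ?_ (subset_closure hwK)
  intro v hv
  have hvK : v ∈ K := by
    by_contra hcon
    have h2 : IsOpen Kᶜ := hKc.isOpen_compl
    have h3 : v ∈ Kᶜ := hcon
    rw [h2.frontier_eq] at hv
    exact hv.2 h3
  obtain ⟨z, ⟨hz1, hz2⟩, rfl⟩ := hvK
  have hzρ : ‖z‖ = ρ := by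
    refine le_antisymm (hle z hz2) ?_
    by_contra hcon
    push Not at hcon
    -- the image of a neighbourhood of `z` is open and contained in `K`
    set U : Set ℂ := ball 0 ρ \ {0} with hU
    have hUo : IsOpen U := isOpen_ball.sdiff isClosed_singleton
    have hUD : U ⊆ Dp := fun x hx => ⟨ball_subset_ball h1.le hx.1, hx.2⟩
    have hUK : h '' U ⊆ K := by
      rintro _ ⟨x, hx, rfl⟩
      have hx1 : ‖x‖ < ρ := by simpa using hx.1
      exact ⟨x, ⟨hx.2, by gcongr⟩, rfl⟩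
    have hoi := (Pool.Agent.Helper405.Conv.inv_facts hUo (hd.mono hUD) (hi.mono hUD)).1
    have hmem : h z ∈ h '' U := ⟨z, ⟨by simpa using hcon, hz1⟩, rfl⟩
    have h4 : h z ∈ closure Kᶜ := frontier_subset_closure hv
    rw [_root_.mem_closure_iff] at h4
    obtain ⟨x, hx1, hx2⟩ := h4 _ hoi hmem
    exact hx2 (hUK hx1)
  exact hmax (mem_sphere_zero_iff_norm.2 hzρ)

theorem vprod_level {h : ℂ → ℂ} (hd : DifferentiableOn ℂ h Dp) (hi : InjOn h Dp)
    (hp : Tendsto h (𝓝[≠] 0) (Bornology.cobounded ℂ)) {Γ : Set ℂ} (hΓ : ∀ z ∈ Dp, h z ∉ Γ)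
    {ρ : ℝ} (h0 : 0 < ρ) (h1 : ρ < 1) {n : ℕ} (w : Fin n → ℂ) (hw : ∀ i, w i ∈ Γ) :
    ∃ z : Fin n → ℂ, (∀ i, ‖z i‖ = ρ) ∧ vprod w ≤ vprod (fun i => h (z i)) := by
  classical
  have key : ∀ s : Finset (Fin n), ∃ w' : Fin n → ℂ, (∀ i ∈ s, ∃ z : ℂ, ‖z‖ = ρ ∧ w' i = h z) ∧
      (∀ i, i ∉ s → w' i ∈ Γ) ∧ vprod w ≤ vprod w' := by
    intro s
    induction s using Finset.induction_on with
    | empty => exact ⟨w, by simp, fun i _ => hw i, le_rfl⟩
    | insert a s has ih =>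
      obtain ⟨w', hw1, hw2, hw3⟩ := ih
      set f : ℂ → ℂ := fun ζ => ∏ i : Fin n, ∏ j ∈ Finset.Ioi i,
        (Function.update w' a ζ i - Function.update w' a ζ j) with hf
      have hup : ∀ i, Differentiable ℂ fun ζ : ℂ => Function.update w' a ζ i := by
        intro i
        by_cases hia : i = a
        · subst hia
          simpa using differentiable_id
        · simpa [Function.update_of_ne hia] using differentiable_const (w' i)
      have hfd : Differentiable ℂ f := by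
        simp only [hf]
        refine Differentiable.fun_finsetProd fun i _ => ?_
        refine Differentiable.fun_finsetProd fun j _ => ?_
        exact (hup i).sub (hup j)
      have hfv : ∀ ζ, ‖f ζ‖ = vprod (Function.update w' a ζ) := by
        intro ζ
        simp only [hf, vprod, norm_prod]
      obtain ⟨z, hz1, hz2⟩ := max_level hd hi hp hΓ h0 h1 hfd (hw2 a has)
      rw [hfv, hfv, Function.update_eq_self] at hz2
      refine ⟨Function.update w' a (h z), ?_, ?_, hw3.trans hz2⟩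
      · intro i hi
        by_cases hia : i = a
        · subst hia
          exact ⟨z, hz1, by simp⟩
        · rw [Function.update_of_ne hia]
          exact hw1 i (Finset.mem_of_mem_insert_of_ne hi hia)
      · intro i hi
        rw [Finset.mem_insert, not_or] at hi
        rw [Function.update_of_ne hi.1]
        exact hw2 i hi.2
  obtain ⟨w', hw1, -, hw3⟩ := key Finset.univ
  choose z hz1 hz2 using fun i => hw1 i (Finset.mem_univ i)
  refine ⟨z, hz1, ?_⟩
  have : w' = fun i => h (z i) := funext hz2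
  rwa [← this]

/-- the Chebyshev lower bound -/
theorem cheb_lower {h H : ℂ → ℂ} (hH : DifferentiableOn ℂ H (ball 0 1))
    (hHz : ∀ z ∈ Dp, H z = z * h z) {Γ : Set ℂ} (hΓc : IsCompact Γ) (hΓne : Γ.Nonempty)
    (hbd : ∀ η : ℝ, 0 < η → ∃ ρ : ℝ, 0 < ρ ∧ ρ < 1 ∧ ∀ z : ℂ, ρ < ‖z‖ → ‖z‖ < 1 →
        ∃ s ∈ Γ, dist (h z) s < η) (p : Polynomial ℂ) (hpm : p.Monic) :
    ∃ s ∈ Γ, ‖H 0‖ ^ p.natDegree ≤ ‖p.eval s‖ := by
  obtain ⟨s, hs, hmax⟩ := hΓc.exists_isMaxOn hΓne (p.continuous.norm.continuousOn)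
  refine ⟨s, hs, ?_⟩
  set m := p.natDegree with hm
  refine le_of_forall_pos_le_add fun ε hε => ?_
  set O : Set ℂ := {w | ‖p.eval w‖ < ‖p.eval s‖ + ε} with hO
  have hOo : IsOpen O := isOpen_lt p.continuous.norm continuous_const
  have hΓO : Γ ⊆ O := fun w hw => by
    have : ‖p.eval w‖ ≤ ‖p.eval s‖ := hmax hw
    show ‖p.eval w‖ < ‖p.eval s‖ + ε
    linarith
  obtain ⟨η, hη, hηO⟩ := hΓc.exists_thickening_subset_open hOo hΓO
  obtain ⟨ρ, hρ0, hρ1, hρ⟩ := hbd η hη
  obtain ⟨r, hr1, hr2⟩ := exists_between hρ1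
  have hr0 : 0 < r := hρ0.trans hr1
  set P : ℂ → ℂ := fun z => ∑ i ∈ Finset.range (m + 1), p.coeff i * (z ^ (m - i) * H z ^ i) with hP
  have hPd : DifferentiableOn ℂ P (ball 0 1) := by
    simp only [hP]
    apply DifferentiableOn.fun_sum
    intro i _
    exact (differentiableOn_const _).mul
      (((differentiable_id.pow _).differentiableOn).mul (hH.pow _))
  have hP0 : P 0 = H 0 ^ m := by
    simp only [hP]
    rw [Finset.sum_range_succ, Nat.sub_self, pow_zero, one_mul]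
    have h1 : ∑ i ∈ Finset.range m, p.coeff i * ((0 : ℂ) ^ (m - i) * H 0 ^ i) = 0 := by
      refine Finset.sum_eq_zero fun i hi => ?_
      rw [Finset.mem_range] at hi
      rw [zero_pow (by omega), zero_mul, mul_zero]
    have h2 : p.coeff m = 1 := hpm
    rw [h1, h2, zero_add, one_mul]
  have hPz : ∀ z ∈ Dp, P z = z ^ m * p.eval (h z) := by
    intro z hz
    simp only [hP]
    rw [Polynomial.eval_eq_sum_range, Finset.mul_sum]
    refine Finset.sum_congr rfl fun i hi => ?_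
    rw [Finset.mem_range] at hi
    rw [hHz z hz, mul_pow]
    have e : z ^ m = z ^ (m - i) * z ^ i := by rw [← pow_add]; congr 1; omega
    rw [e]; ring
  have hcl : closedBall (0 : ℂ) r ⊆ ball 0 1 := closedBall_subset_ball hr2
  have hle : ‖P 0‖ ≤ ‖p.eval s‖ + ε := by
    refine Complex.norm_le_of_forall_mem_frontier_norm_le (U := ball (0 : ℂ) r) isBounded_ball
      ?_ ?_ (subset_closure (mem_ball_self hr0))
    · refine (hPd.mono ?_).diffContOnCl
      rw [closure_ball _ hr0.ne']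
      exact hcl
    · intro z hz
      rw [frontier_ball _ hr0.ne', mem_sphere_zero_iff_norm] at hz
      have hzD : z ∈ Dp := by
        refine ⟨by rw [mem_ball_zero_iff, hz]; exact hr2, ?_⟩
        intro h
        have : z = 0 := h
        rw [this, norm_zero] at hz
        linarith
      obtain ⟨s', hs', hd'⟩ := hρ z (by rw [hz]; exact hr1) (by rw [hz]; exact hr2)
      have h3 : h z ∈ O := hηO (mem_thickening_iff.2 ⟨s', hs', hd'⟩)
      rw [hPz z hzD, norm_mul, norm_pow, hz]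
      have h4 : ‖p.eval (h z)‖ < ‖p.eval s‖ + ε := h3
      have h5 : r ^ m ≤ 1 := pow_le_one₀ hr0.le hr2.le
      have h6 : 0 ≤ r ^ m := by positivity
      nlinarith [norm_nonneg (p.eval (h z))]
  rw [hP0, norm_pow] at hle
  exact hle

theorem maxProd_lower {h H : ℂ → ℂ} (hH : DifferentiableOn ℂ H (ball 0 1))
    (hHz : ∀ z ∈ Dp, H z = z * h z) {Γ : Set ℂ} (hΓc : IsCompact Γ) (hΓne : Γ.Nonempty)
    (hbd : ∀ η : ℝ, 0 < η → ∃ ρ : ℝ, 0 < ρ ∧ ρ < 1 ∧ ∀ z : ℂ, ρ < ‖z‖ → ‖z‖ < 1 →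
        ∃ s ∈ Γ, dist (h z) s < η) (n : ℕ) :
    ∏ k ∈ Finset.range n, ‖H 0‖ ^ k ≤ maxProd Γ n := by
  induction n with
  | zero =>
    have := le_maxProd hΓc (n := 0) (w := fun i => i.elim0) (fun i => i.elim0)
    simpa [vprod] using this
  | succ n ih =>
    obtain ⟨w, hw, hwm⟩ := exists_fekete hΓc hΓne n
    set p : Polynomial ℂ := ∏ i : Fin n, (Polynomial.X - Polynomial.C (w i)) with hp
    have hpm : p.Monic := Polynomial.monic_prod_of_monic _ _ fun i _ => Polynomial.monic_X_sub_C _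
    have hpd : p.natDegree = n := by
      rw [hp, Polynomial.natDegree_prod_of_monic _ _ fun i _ => Polynomial.monic_X_sub_C _]
      simp
    obtain ⟨s, hs, hle⟩ := cheb_lower hH hHz hΓc hΓne hbd p hpm
    rw [hpd] at hle
    have hev : ‖p.eval s‖ = ∏ j, ‖s - w j‖ := by
      rw [hp, Polynomial.eval_prod, norm_prod]
      simp
    rw [hev] at hle
    have h1 := le_maxProd hΓc (n := n + 1) (w := (Fin.cons s w : Fin (n + 1) → ℂ)) (by
      intro i
      refine Fin.cases ?_ (fun j => ?_) i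
      · simpa using hs
      · simpa using hw j)
    rw [vprod_cons] at h1
    rw [Finset.prod_range_succ, mul_comm]
    refine le_trans ?_ h1
    rw [hwm]
    exact mul_le_mul hle ih (Finset.prod_nonneg fun k _ => by positivity)
      (Finset.prod_nonneg fun j _ => norm_nonneg _)

end Pool.Agent.Y257.Dm
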