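import Mathlib
import Pool.Agent.Y257.Dm.Top
import Pool.Agent.Y257.Dm.Path

/-!
# The upper bound `d_n(E) ^ (n-1) ≤ 28 n` for continua of capacity one
-/

set_option autoImplicit false

open Complex Filter Topology Set Metric

namespace Pool.Agent.Y257.Dm

open Pool.Agent.Helper405.Area (Dp)
open Pool.Agent.H655R3.Dia

/-- `r ^ (n (n-1) / 2)` -/
noncomputable def FF (r : ℝ) (n : ℕ) : ℝ := ∏ k ∈ Finset.range n, r ^ k

theorem FF_eq (r : ℝ) (n : ℕ) : FF r n = r ^ (∑ k ∈ Finset.range n, k) := by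
  rw [FF, Finset.prod_pow_eq_pow_sum]

theorem FF_mono {r s : ℝ} (hr : 0 ≤ r) (hrs : r ≤ s) (n : ℕ) : FF r n ≤ FF s n := by
  rw [FF_eq, FF_eq]
  gcongr

theorem FF_nonneg {r : ℝ} (hr : 0 ≤ r) (n : ℕ) : 0 ≤ FF r n := by
  rw [FF_eq]; positivity

theorem exists_m {E : Set ℂ} (hd : HasTransfiniteDiam E 1) {ε : ℝ} (hε : 0 < ε) :
    ∃ m : ℕ, maxProd E m < FF (1 + ε) m := by
  have h1 : ∀ᶠ m : ℕ in atTop, nDiam E m < 1 + ε := by
    have : Tendsto (fun n => nDiam E n) atTop (𝓝 1) := hd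
    exact this.eventually (gt_mem_nhds (by linarith))
  obtain ⟨m, hm, hm2⟩ := (h1.and (eventually_ge_atTop 2)).exists
  refine ⟨m, ?_⟩
  have hm1 : (2 : ℝ) ≤ m := by exact_mod_cast hm2
  set K : ℝ := (m : ℝ) * ((m : ℝ) - 1) with hK
  have hKp : 0 < K := by
    rw [hK]
    have : 0 < (m : ℝ) - 1 := by linarith
    positivity
  have h0 := maxProd_nonneg E m
  have h2 : (nDiam E m) ^ (K / 2) = maxProd E m := by
    rw [nDiam, ← Real.rpow_mul h0]
    have : 2 / (↑m * (↑m - 1)) * (K / 2) = 1 := by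
      rw [← hK]; field_simp
    rw [this, Real.rpow_one]
  have h3 : FF (1 + ε) m = (1 + ε) ^ (K / 2) := by
    rw [FF_eq, ← Real.rpow_natCast]
    congr 1
    have h4 := Finset.sum_range_id_mul_two m
    have h5 : ((∑ k ∈ Finset.range m, k : ℕ) : ℝ) * 2 = m * ((m : ℝ) - 1) := by
      have : (((∑ k ∈ Finset.range m, k) * 2 : ℕ) : ℝ) = ((m * (m - 1) : ℕ) : ℝ) := by rw [h4]
      rw [Nat.cast_mul, Nat.cast_mul, Nat.cast_sub (by omega)] at this
      push_cast at this ⊢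
      exact this
    rw [hK]
    linarith
  rw [h3, ← h2]
  have h6 : 0 ≤ nDiam E m := Real.rpow_nonneg h0 _
  exact Real.rpow_lt_rpow h6 hm (by positivity)

theorem vprod_unif {E : Set ℂ} (hE : IsCompact E) (m : ℕ) {τ : ℝ} (hτ : 0 < τ) :
    ∃ δ : ℝ, 0 < δ ∧ ∀ u u' : Fin m → ℂ, (∀ i, u' i ∈ E) → (∀ i, dist (u' i) (u i) < δ) →
      vprod u < vprod u' + τ ∧ vprod u' < vprod u + τ := by
  have hK := isCompact_tuples hE m
  have h1 := hK.uniformContinuousAt_of_continuousAt (fun w : Fin m → ℂ => vprod w)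
    (fun a _ => (continuous_vprod m).continuousAt) (Metric.dist_mem_uniformity hτ)
  rw [Metric.mem_uniformity_dist] at h1
  obtain ⟨δ, hδ, h2⟩ := h1
  refine ⟨δ, hδ, fun u u' hu' hd => ?_⟩
  have h3 : dist u' u < δ := by
    rw [dist_pi_lt_iff hδ]
    exact hd
  have h4 := h2 h3 hu'
  have h5 : dist (vprod u') (vprod u) < τ := h4
  rw [Real.dist_eq, abs_lt] at h5
  constructor <;> linarith [h5.1, h5.2]

theorem maxProd_sq_le {E : Set ℂ} (hE : IsCompact E) (hc : IsPreconnected E)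
    (hd : HasTransfiniteDiam E 1) (N : ℕ) :
    maxProd E (N + 1) ≤ Real.sqrt ((28 * ((N : ℝ) + 1)) ^ (N + 1)) := by
  have hinf := infinite_of hd
  obtain ⟨a, ha⟩ := hinf.nonempty
  obtain ⟨b, hb, hba⟩ := hinf.exists_notMem_finset {a}
  have hab : a ≠ b := fun h => hba (by simp [h])
  set B : ℝ := Real.sqrt ((28 * ((N : ℝ) + 1)) ^ (N + 1)) with hB
  have hB0 : 0 ≤ B := Real.sqrt_nonneg _
  obtain ⟨w, hw, hwm⟩ := exists_fekete hE ⟨a, ha⟩ (N + 1)
  have key : ∀ ε : ℝ, 0 < ε → maxProd E (N + 1) ≤ FF (1 + ε) (N + 1) * B + ε := by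
    intro ε hε
    obtain ⟨m, hm⟩ := exists_m hd hε
    obtain ⟨δ1, hδ1, h1⟩ := vprod_unif hE m (show 0 < FF (1 + ε) m - maxProd E m by linarith)
    obtain ⟨δ2, hδ2, h2⟩ := vprod_unif hE (N + 1) hε
    obtain ⟨γ, hγ, hγ0, hγ1, hnear1, hnear2⟩ := exists_net_path hE hc ha hb (lt_min hδ1 hδ2)
    set Γ : Set ℂ := γ '' Icc 0 1 with hΓ
    have hΓc : IsCompact Γ := isCompact_Icc.image hγ
    have hΓne : Γ.Nonempty := ⟨γ 0, 0, ⟨le_refl _, zero_le_one⟩, rfl⟩
    obtain ⟨h, H, hH0, hhd, hhi, hhp, hHd, hHz, hhΓ, hbd⟩ := ext_map γ hγ (by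
      rw [hγ0, hγ1]; exact hab)
    -- the capacity is at most `1 + ε`
    have hcap : ‖H 0‖ < 1 + ε := by
      by_contra hcon
      push Not at hcon
      have h3 : FF (1 + ε) m ≤ FF ‖H 0‖ m := FF_mono (by positivity) hcon m
      have h4 : FF ‖H 0‖ m ≤ maxProd Γ m := maxProd_lower hHd hHz hΓc hΓne hbd m
      obtain ⟨u, hu, hum⟩ := exists_fekete hΓc hΓne m
      choose u' hu' hd' using fun i => hnear1 (u i) (hu i)
      have h5 := (h1 u u' hu' (fun i => by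
        rw [dist_comm]; exact (hd' i).trans_le (min_le_left _ _))).1
      have h6 := le_maxProd hE hu'
      rw [hum] at h5
      linarith
    -- approximate the Fekete points
    choose w' hw' hd' using fun i => hnear2 (w i) (hw i)
    have h3 := (h2 w' w hw (fun i => (hd' i).trans_le (min_le_right _ _))).2
    rw [hwm] at h3
    obtain ⟨z, hz1, hz2⟩ := vprod_level hhd hhi hhp hhΓ (qq_pos (n := N + 1) (by omega)) (qq_lt _) w' hw'
    have h4 := det_level hhd hhi hhp hHd hHz hH0 N z hz1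
    rw [← vprod_eq_det] at h4
    have h5 : (∏ k : Fin (N + 1), ‖H 0‖ ^ (k : ℕ)) = FF ‖H 0‖ (N + 1) := by
      rw [FF, ← Fin.prod_univ_eq_prod_range (fun k => ‖H 0‖ ^ k)]
    rw [h5] at h4
    have h6 : vprod (fun i => h (z i)) ≤ FF ‖H 0‖ (N + 1) * B := by
      have h7 : 0 ≤ FF ‖H 0‖ (N + 1) * B := mul_nonneg (FF_nonneg (norm_nonneg _) _) hB0
      apply le_of_sq_le_sq _ h7
      rw [mul_pow, hB, Real.sq_sqrt (by positivity)]
      exact h4
    have h8 : FF ‖H 0‖ (N + 1) * B ≤ FF (1 + ε) (N + 1) * B :=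
      mul_le_mul_of_nonneg_right (FF_mono (norm_nonneg _) hcap.le _) hB0
    linarith
  have hlim : Tendsto (fun ε : ℝ => FF (1 + ε) (N + 1) * B + ε) (𝓝[>] 0)
      (𝓝 (FF (1 + 0) (N + 1) * B + 0)) := by
    have hcont : Continuous fun ε : ℝ => FF (1 + ε) (N + 1) * B + ε := by
      simp only [FF_eq]
      fun_prop
    exact (hcont.tendsto 0).mono_left nhdsWithin_le_nhds
  have h1 : FF (1 + 0) (N + 1) * B + 0 = B := by
    rw [FF_eq]; simp
  rw [h1] at hlim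
  refine ge_of_tendsto hlim ?_
  filter_upwards [self_mem_nhdsWithin] with ε hε
  exact key ε hε

theorem main_upper {E : Set ℂ} (hE : IsCompact E) (hc : IsPreconnected E)
    (hd : HasTransfiniteDiam E 1) {n : ℕ} (hn : 2 ≤ n) :
    nDiam E n ^ (n - 1) ≤ 28 * n := by
  obtain ⟨N, rfl⟩ : ∃ N, n = N + 1 := ⟨n - 1, by omega⟩
  have hN : 1 ≤ N := by omega
  have h1 := maxProd_sq_le hE hc hd N
  have h0 := maxProd_nonneg E (N + 1)
  have hN0 : (0 : ℝ) < N := by exact_mod_cast hN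
  have hx : (0 : ℝ) ≤ 28 * ((N : ℝ) + 1) := by positivity
  rw [Nat.add_sub_cancel, nDiam, ← Real.rpow_natCast, ← Real.rpow_mul h0]
  have e1 : 2 / (((N + 1 : ℕ) : ℝ) * (((N + 1 : ℕ) : ℝ) - 1)) * (N : ℝ) = 2 / ((N : ℝ) + 1) := by
    push_cast
    have : (N : ℝ) + 1 - 1 = N := by ring
    rw [this]
    field_simp
  rw [e1]
  calc maxProd E (N + 1) ^ (2 / ((N : ℝ) + 1))
      ≤ (Real.sqrt ((28 * ((N : ℝ) + 1)) ^ (N + 1))) ^ (2 / ((N : ℝ) + 1)) :=
        Real.rpow_le_rpow h0 h1 (by positivity)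
    _ = 28 * (((N + 1 : ℕ) : ℝ)) := by
      rw [Real.sqrt_eq_rpow, ← Real.rpow_natCast, ← Real.rpow_mul hx, ← Real.rpow_mul hx]
      push_cast
      have : ((N : ℝ) + 1) * (1 / 2) * (2 / ((N : ℝ) + 1)) = 1 := by field_simp
      rw [this, Real.rpow_one]

end Pool.Agent.Y257.Dm
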